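import Mathlib
import Pool.Agent.Lib.helper23.Ros

set_option autoImplicit false

open Set Filter Topology TopologicalSpace

namespace Pool.Agent.Results.MP_8a822d_gt.Q1

/-- Baire-one functions: pointwise limits of sequences of continuous functions -/
def BaireOne {M : Type} [TopologicalSpace M] (f : M → ℝ) : Prop :=
  ∃ g : ℕ → M → ℝ, (∀ n, Continuous (g n)) ∧ ∀ x, Tendsto (fun n => g n x) atTop (𝓝 (f x))

/-- separately continuous real functions -/
def SepCont (X Y : Type) [TopologicalSpace X] [TopologicalSpace Y] : Type :=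
  {f : X × Y → ℝ // (∀ x, Continuous fun y => f (x, y)) ∧ ∀ y, Continuous fun x => f (x, y)}

/-- the cross of a point -/
def cross {X Y : Type} (c : X × Y) : Set (X × Y) := {p | p.1 = c.1 ∨ p.2 = c.2}

/-- the cross-open topology -/
def cro (X Y : Type) [TopologicalSpace X] [TopologicalSpace Y] :
    TopologicalSpace (SepCont X Y) :=
  generateFrom {T | ∃ (c : X × Y) (O : Set (X × Y)) (W : Set ℝ), IsOpen O ∧ IsOpen W ∧
    T = {s | ∀ p ∈ closure (O ∩ cross c) ∩ cross c, s.1 p ∈ W}}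

theorem result : ∃ K : Set (ℝ → ℝ), IsCompact K ∧ (∀ f ∈ K, BaireOne f) ∧
    ∀ (X Y : Type) [TopologicalSpace X] [TopologicalSpace Y] [PolishSpace X] [PolishSpace Y],
      ¬ ∃ e : K → SepCont X Y, @IsEmbedding _ _ _ (cro X Y) e := by
  refine ⟨Lib.helper23.Ros.K, Lib.helper23.Ros.K_compact, fun f hf => Lib.helper23.Ros.K_baire hf,
    fun X Y _ _ _ _ ⟨e, he⟩ => ?_⟩
  letI := cro X Y
  refine Lib.helper23.Ros.main (fun s : SepCont X Y => s.1) Subtype.val_injective
    (fun s => s.2.1) (fun s => s.2.2) (fun c => continuous_def.2 fun W hW =>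
      isOpen_iff_forall_mem_open.2 fun s hs => ?_) e he.continuous he.injective
  obtain ⟨O, o1, o2, o3⟩ := Lib.helper23.Ros.cross s.2.1 s.2.2 c hW hs
  exact ⟨{t | ∀ p ∈ closure (O ∩ cross c) ∩ cross c, t.1 p ∈ W}, fun t ht => ht c
    ⟨subset_closure ⟨o2, Or.inl rfl⟩, Or.inl rfl⟩,
    isOpen_generateFrom_of_mem ⟨c, O, W, o1, hW, rfl⟩, fun p hp => o3 p hp.1⟩

end Pool.Agent.Results.MP_8a822d_gt.Q1
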